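import Pool.Agent.Q295.TY.Multi

/-!
# The number of vertices in the simultaneous Ramsey theorem
-/

set_option autoImplicit false

namespace Pool.Agent.Q295.TY

open Finset

/-- The tower `2 ^ (2 ^ (… ^ x))` with `k` twos. -/
def twr : ℕ → ℕ → ℕ
  | 0, x => x
  | k + 1, x => 2 ^ twr k x

theorem twr_mono (k : ℕ) {x y : ℕ} (h : x ≤ y) : twr k x ≤ twr k y := by
  induction k with
  | zero => exact h
  | succ k ih => exact Nat.pow_le_pow_right (by norm_num) ih

theorem le_twr (k x : ℕ) : x ≤ twr k x := by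
  induction k with
  | zero => exact le_rfl
  | succ k ih => exact ih.trans Nat.lt_two_pow_self.le

theorem twr_add (k a b : ℕ) : twr k a + b ≤ twr k (a + b) := by
  induction k with
  | zero => exact le_rfl
  | succ k ih =>
    simp only [twr]
    calc 2 ^ twr k a + b ≤ 2 ^ (twr k a + b) := by
          rw [pow_add]
          have h1 : b + 1 ≤ 2 ^ b := Nat.lt_two_pow_self
          have h2 : 1 ≤ 2 ^ twr k a := Nat.one_le_two_pow
          nlinarith
      _ ≤ _ := Nat.pow_le_pow_right (by norm_num) ih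

theorem mul_twr (k m x : ℕ) (hm : 1 ≤ m) (hx : 1 ≤ x) : m * twr k x ≤ twr k (m * x) := by
  induction k with
  | zero => exact le_rfl
  | succ k ih =>
    simp only [twr]
    have h1 : 1 ≤ twr k x := hx.trans (le_twr k x)
    calc m * 2 ^ twr k x ≤ 2 ^ (m * twr k x) := by
          obtain ⟨m, rfl⟩ : ∃ i, m = i + 1 := ⟨m - 1, by omega⟩
          have h2 : m + 1 ≤ 2 ^ m := Nat.lt_two_pow_self
          have h3 : 2 ^ m ≤ 2 ^ (m * twr k x) :=
            Nat.pow_le_pow_right (by norm_num) (Nat.le_mul_of_pos_right m h1)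
          calc (m + 1) * 2 ^ twr k x ≤ 2 ^ (m * twr k x) * 2 ^ twr k x :=
                Nat.mul_le_mul_right _ (h2.trans h3)
            _ = 2 ^ ((m + 1) * twr k x) := by rw [← pow_add]; ring_nf
      _ ≤ _ := Nat.pow_le_pow_right (by norm_num) ih

theorem twr_pow (k m x : ℕ) (hm : 1 ≤ m) (hx : 1 ≤ x) :
    (twr (k + 1) x) ^ m ≤ twr (k + 1) (m * x) := by
  simp only [twr]
  rw [← pow_mul, mul_comm]
  exact Nat.pow_le_pow_right (by norm_num) (mul_twr k m x hm hx)

theorem prod_le (s Y : ℕ) (q : ℕ → ℕ) (h : ∀ j ≤ s + 1, q j ≤ 2 ^ Y) :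
    ∏ j : Fin (s + 1), q (j + 1) ≤ 2 ^ (Y * (s + 1)) := by
  calc ∏ j : Fin (s + 1), q (j + 1) ≤ ∏ _j : Fin (s + 1), 2 ^ Y :=
        Finset.prod_le_prod' (fun j _ => h _ (by have := j.2; omega))
    _ = 2 ^ (Y * (s + 1)) := by simp [← pow_mul]

theorem F_step (s Y : ℕ) (q : ℕ → ℕ) (n : ℕ) (h : ∀ j ≤ s + 1, q j ≤ 2 ^ Y) :
    F (s + 1) q n ≤ 2 ^ (Y + (1 + Y * (s + 1) * ((s + 1) * (F s (fun j => q (j + 1)) n) ^ s)) *
      F s (fun j => q (j + 1)) n) := by
  simp only [F]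
  set k := F s (fun j => q (j + 1)) n with hk
  rw [pow_add]
  refine Nat.mul_le_mul (h 0 (by omega)) ?_
  have h1 : 2 * (∏ j : Fin (s + 1), q (j + 1)) ^ ((s + 1) * k ^ s) ≤
      2 ^ (1 + Y * (s + 1) * ((s + 1) * k ^ s)) := by
    rw [pow_add, pow_one]
    apply Nat.mul_le_mul_left
    rw [pow_mul 2 (Y * (s + 1))]
    exact Nat.pow_le_pow_left (prod_le s Y q h) _
  rw [pow_mul 2 (1 + Y * (s + 1) * ((s + 1) * k ^ s))]
  exact Nat.pow_le_pow_left h1 _

theorem bound (s : ℕ) : ∃ C : ℕ, 1 ≤ C ∧ ∀ (q : ℕ → ℕ) (Y n : ℕ), 1 ≤ Y → 1 ≤ n →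
    (∀ j ≤ s, q j ≤ 2 ^ Y) → q s ≤ Y → F s q n ≤ twr s (C * (Y ^ 2 * n)) := by
  induction s with
  | zero =>
    refine ⟨1, le_rfl, fun q Y n hY hn _ h => ?_⟩
    simp only [F, twr, one_mul]
    exact Nat.mul_le_mul_right n (h.trans (Nat.le_self_pow (by norm_num) Y))
  | succ s ih =>
    obtain ⟨C, hC, hF⟩ := ih
    rcases s with _ | s
    · refine ⟨3, by norm_num, fun q Y n hY hn h h1 => ?_⟩
      refine (F_step 0 Y q n h).trans ?_
      simp only [twr]
      apply Nat.pow_le_pow_right (by norm_num)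
      simp only [F, zero_add, pow_zero, mul_one]
      have e1 : q 1 * n ≤ Y * n := Nat.mul_le_mul_right n h1
      have e2 : Y ≤ Y ^ 2 * n := by nlinarith [Nat.mul_le_mul hY hn]
      have e3 : Y * n ≤ Y ^ 2 * n := Nat.mul_le_mul_right n (Nat.le_self_pow (by norm_num) Y)
      calc Y + (1 + Y) * (q 1 * n) ≤ Y + (1 + Y) * (Y * n) := by gcongr
        _ = Y + Y * n + Y ^ 2 * n := by ring
        _ ≤ 3 * (Y ^ 2 * n) := by omega
    · refine ⟨(s + 3 + (2 + (s + 2) * (s + 2))) * C, Nat.mul_pos (by positivity) hC,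
        fun q Y n hY hn h h1 => ?_⟩
      have hk := hF (fun j => q (j + 1)) Y n hY hn (fun j hj => h _ (by omega)) h1
      refine (F_step (s + 1) Y q n h).trans ?_
      set k := F (s + 1) (fun j => q (j + 1)) n with hkd
      set X := Y ^ 2 * n with hX
      set K := twr (s + 1) (C * X) with hK
      have hX1 : 1 ≤ X := Nat.mul_pos (by positivity) hn
      have hYX : Y ≤ X := by
        calc Y = Y * 1 := (mul_one _).symm
          _ ≤ Y ^ 2 * n := Nat.mul_le_mul (Nat.le_self_pow (by norm_num) Y) hn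
      have hCX : 1 ≤ C * X := Nat.mul_pos hC hX1
      have hYK : Y ≤ K := by
        calc Y ≤ X := hYX
          _ ≤ C * X := Nat.le_mul_of_pos_left X hC
          _ ≤ K := le_twr _ _
      have hK2 : 2 ≤ K := by
        rw [hK]
        simp only [twr]
        calc 2 = 2 ^ 1 := rfl
          _ ≤ _ := Nat.pow_le_pow_right (by norm_num) (hCX.trans (le_twr _ _))
      change 2 ^ _ ≤ 2 ^ (twr (s + 1) _)
      apply Nat.pow_le_pow_right (by norm_num)
      have e1 : Y + (1 + Y * (s + 1 + 1) * ((s + 1 + 1) * k ^ (s + 1))) * k ≤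
          K + (1 + K * (s + 2) * ((s + 2) * K ^ (s + 1))) * K := by gcongr
      have e2 : K ≤ K ^ (s + 3) := Nat.le_self_pow (by omega) K
      have e3 : K + (1 + K * (s + 2) * ((s + 2) * K ^ (s + 1))) * K =
          K + K + (s + 2) * (s + 2) * K ^ (s + 3) := by ring
      have e4 : K + K + (s + 2) * (s + 2) * K ^ (s + 3) ≤
          (2 + (s + 2) * (s + 2)) * K ^ (s + 3) := by
        calc K + K + (s + 2) * (s + 2) * K ^ (s + 3) ≤
              2 * K ^ (s + 3) + (s + 2) * (s + 2) * K ^ (s + 3) :=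
            Nat.add_le_add_right (by omega) _
          _ = (2 + (s + 2) * (s + 2)) * K ^ (s + 3) := by ring
      have e5 : 2 + (s + 2) * (s + 2) ≤ K ^ (2 + (s + 2) * (s + 2)) := by
        calc 2 + (s + 2) * (s + 2) ≤ 2 ^ (2 + (s + 2) * (s + 2)) := Nat.lt_two_pow_self.le
          _ ≤ _ := Nat.pow_le_pow_left hK2 _
      calc Y + (1 + Y * (s + 1 + 1) * ((s + 1 + 1) * k ^ (s + 1))) * k
          ≤ (2 + (s + 2) * (s + 2)) * K ^ (s + 3) := e1.trans (e3.le.trans e4)
        _ ≤ K ^ (2 + (s + 2) * (s + 2)) * K ^ (s + 3) := Nat.mul_le_mul_right _ e5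
        _ = K ^ (s + 3 + (2 + (s + 2) * (s + 2))) := by rw [← pow_add]; ring_nf
        _ ≤ twr (s + 1) ((s + 3 + (2 + (s + 2) * (s + 2))) * (C * X)) :=
            twr_pow s _ _ (by omega) hCX
        _ = _ := by rw [mul_assoc]

end Pool.Agent.Q295.TY
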