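import Pool.Agent.TH138.NF.End

/-!
# A Ramsey theorem for colourings of the sets of size `1`, …, `s + 1` at the same time
-/

set_option autoImplicit false

namespace Pool.Agent.Q295.TY

open Finset Pool.Agent.TH138.NF

/-- The number of vertices; `q j` is the number of colours of the `(j + 1)`-sets. -/
def F : ℕ → (ℕ → ℕ) → ℕ → ℕ
  | 0, q, n => q 0 * n
  | s + 1, q, n => q 0 * (2 * (∏ j : Fin (s + 1), q (j + 1)) ^
      ((s + 1) * (F s (fun j => q (j + 1)) n) ^ s)) ^ (F s (fun j => q (j + 1)) n)

theorem one_tuple (x : Fin (0 + 1) → ℕ) : x = fun _ => x 0 := by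
  funext i
  congr 1
  apply Fin.ext
  have := i.2
  have h0 : ((0 : Fin (0 + 1)) : ℕ) = 0 := rfl
  omega

theorem pigeon {Λ : Type} [Fintype Λ] [DecidableEq Λ] (f : ℕ → Λ) (V : Finset ℕ) (m : ℕ)
    (h : Fintype.card Λ * m ≤ V.card) :
    ∃ W ⊆ V, m ≤ W.card ∧ ∀ a ∈ W, ∀ b ∈ W, f a = f b := by
  have hne : (univ : Finset Λ).Nonempty := ⟨f 0, mem_univ _⟩
  obtain ⟨y, -, hy⟩ := exists_le_card_fiber_of_mul_le_card_of_maps_to
    (s := V) (t := (univ : Finset Λ)) (f := f) (n := m) (fun a _ => mem_univ _) hne
    (by simpa using h)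
  refine ⟨V.filter (fun x => f x = y), filter_subset _ _, hy, ?_⟩
  intro a ha b hb
  rw [(mem_filter.1 ha).2, (mem_filter.1 hb).2]

/-- All increasing tuples in `S` of length `j + 1` get the same colour, for all `j ≤ s`. -/
def AllHom {Λ : ℕ → Type} (χ : (j : ℕ) → (Fin (j + 1) → ℕ) → Λ j) (s : ℕ) (S : Finset ℕ) : Prop :=
  ∀ j ≤ s, ∀ x y : Fin (j + 1) → ℕ, StrictMono x → StrictMono y → (∀ i, x i ∈ S) →
    (∀ i, y i ∈ S) → χ j x = χ j y

theorem multi (n : ℕ) : ∀ (s : ℕ) (Λ : ℕ → Type) [∀ j, Fintype (Λ j)]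
    (χ : (j : ℕ) → (Fin (j + 1) → ℕ) → Λ j) (V : Finset ℕ),
    F s (fun j => Fintype.card (Λ j)) n ≤ V.card →
    ∃ S ⊆ V, S.card = n ∧ AllHom χ s S := by
  classical
  intro s
  induction s with
  | zero =>
    intro Λ _ χ V hV
    obtain ⟨W, hWV, hW, hc⟩ := pigeon (fun v => χ 0 (fun _ => v)) V n (by simpa [F] using hV)
    obtain ⟨S, hS, hcard⟩ := exists_subset_card_eq hW
    refine ⟨S, hS.trans hWV, hcard, ?_⟩
    intro j hj x y _ _ hx hy
    obtain rfl : j = 0 := by omega
    rw [one_tuple x, one_tuple y]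
    exact hc _ (hS (hx 0)) _ (hS (hy 0))
  | succ s ih =>
    intro Λ _ χ V hV
    set k := F s (fun j => Fintype.card (Λ (j + 1))) n with hk
    let M := (j : Fin (s + 1)) → Λ (j + 1)
    have hM : Fintype.card M = ∏ j : Fin (s + 1), Fintype.card (Λ (j + 1)) := Fintype.card_pi
    have hMpos : 1 ≤ Fintype.card M :=
      Fintype.card_pos_iff.2 ⟨fun j => χ (j + 1) (fun _ => 0)⟩
    obtain ⟨V0, hV0, hcV0, hcol⟩ := pigeon (fun v => χ 0 (fun _ => v)) V
      ((2 * Fintype.card M ^ ((s + 1) * k ^ s)) ^ k) (by rw [hM]; exact hV)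
    let L : (Fin (s + 2) → ℕ) → M := fun y j =>
      χ (j + 1) (fun a => y ⟨s - j + a, by have := j.2; have := a.2; omega⟩)
    obtain ⟨v, W, hWV, hWc, hvV, hvm, hvW, -, h2⟩ := end_hom L V0 k
      (2 * Fintype.card M ^ ((s + 1) * k ^ s)) rfl hcV0 k le_rfl
    have hWne : W.Nonempty := by
      rw [← card_pos]
      refine lt_of_lt_of_le ?_ hWc
      positivity
    obtain ⟨w, hw⟩ := hWne
    -- the end-homogeneity for every level
    have hend : ∀ j ≤ s, ∀ i : Fin (j + 1) → ℕ, ∀ t < k, (∀ a, i a < t) →
        χ (j + 1) (Fin.snoc (fun a => v (i a)) (v t)) =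
          χ (j + 1) (Fin.snoc (fun a => v (i a)) w) := by
      intro j hj i t ht hi
      let i' : Fin (s + 1) → ℕ := fun b => i ⟨b - (s - j), by have := b.2; omega⟩
      have h3 := congrFun (h2 i' t ht (fun a => hi _) w hw) ⟨j, by omega⟩
      have key : ∀ u : ℕ, (fun a : Fin (j + 2) =>
          (Fin.snoc (fun a => v (i' a)) u : Fin (s + 2) → ℕ) ⟨s - j + a, by
            have := a.2; omega⟩) = (Fin.snoc (fun a => v (i a)) u : Fin (j + 2) → ℕ) := by
        intro u
        funext a
        refine Fin.lastCases ?_ (fun a => ?_) a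
        · rw [Fin.snoc_last]
          have : (⟨s - j + (Fin.last (j + 1) : Fin (j + 2)), by
              have := (Fin.last (j + 1)).2; omega⟩ : Fin (s + 2)) = Fin.last (s + 1) := by
            apply Fin.ext
            simp only [Fin.val_last]
            omega
          rw [this, Fin.snoc_last]
        · rw [Fin.snoc_castSucc]
          have : (⟨s - j + (a.castSucc : Fin (j + 2)), by
              have := a.2; simp only [Fin.val_castSucc]; omega⟩ : Fin (s + 2)) =
              Fin.castSucc ⟨s - j + a, by have := a.2; omega⟩ := by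
            apply Fin.ext
            simp
          rw [this, Fin.snoc_castSucc]
          simp only [i']
          congr 2
          apply Fin.ext
          simp
      have h4 : ∀ u : ℕ, L (Fin.snoc (fun a => v (i' a)) u) ⟨j, by omega⟩ =
          χ (j + 1) (Fin.snoc (fun a => v (i a)) u) := by
        intro u
        simp only [L]
        exact congrArg (χ (j + 1)) (key u)
      rw [h4, h4] at h3
      exact h3
    obtain ⟨S', hS', hc', hh⟩ := ih (fun j => Λ (j + 1))
      (fun j i => χ (j + 1) (Fin.snoc (fun a => v (i a)) w)) (range k) (by rw [card_range])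
    have hinj : Set.InjOn v (range k : Finset ℕ) := by
      intro i hi j hj hij
      rw [coe_range, Set.mem_Iio] at hi hj
      rcases lt_trichotomy i j with h | h | h
      · exact absurd hij (hvm i j h hj).ne
      · exact h
      · exact absurd hij (hvm j i h hi).ne'
    refine ⟨S'.image v, ?_, ?_, ?_⟩
    · intro u hu
      obtain ⟨i, hi, rfl⟩ := mem_image.1 hu
      exact hV0 (hvV i (mem_range.1 (hS' hi)))
    · rw [card_image_of_injOn (hinj.mono (by exact_mod_cast hS')), hc']
    · intro j hj x y hx hy hxS hyS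
      rcases j with _ | j
      · rw [one_tuple x, one_tuple y]
        obtain ⟨i, hi, hi'⟩ := mem_image.1 (hxS 0)
        obtain ⟨i2, hi2, hi2'⟩ := mem_image.1 (hyS 0)
        rw [← hi', ← hi2']
        exact hcol _ (hvV i (mem_range.1 (hS' hi))) _ (hvV i2 (mem_range.1 (hS' hi2)))
      · have key : ∀ x : Fin (j + 2) → ℕ, StrictMono x → (∀ a, x a ∈ S'.image v) →
            ∃ i : Fin (j + 1) → ℕ, StrictMono i ∧ (∀ a, i a ∈ S') ∧
              χ (j + 1) x = χ (j + 1) (Fin.snoc (fun a => v (i a)) w) := by
          intro x hx hxS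
          have hch : ∀ a, ∃ i ∈ S', v i = x a := fun a => by
            simpa using mem_image.1 (hxS a)
          choose i hi hvi using hch
          have him : StrictMono i := by
            intro a a' haa'
            by_contra hle
            push Not at hle
            have h3 := hx haa'
            rw [← hvi a, ← hvi a'] at h3
            rcases Nat.lt_or_eq_of_le hle with h | h
            · exact absurd (hvm _ _ h (mem_range.1 (hS' (hi a)))) (not_lt.2 h3.le)
            · rw [h] at h3; exact lt_irrefl _ h3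
          refine ⟨fun a => i a.castSucc, fun a a' h => him (by simpa using h),
            fun a => hi _, ?_⟩
          have hxe : x = Fin.snoc (fun a : Fin (j + 1) => v (i a.castSucc))
              (v (i (Fin.last (j + 1)))) := by
            funext a
            refine Fin.lastCases ?_ (fun a => ?_) a
            · rw [Fin.snoc_last, hvi]
            · rw [Fin.snoc_castSucc, hvi]
          conv_lhs => rw [hxe]
          exact hend j (by omega) (fun a => i a.castSucc) _ (mem_range.1 (hS' (hi _)))
            (fun a => him (Fin.castSucc_lt_last a))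
        obtain ⟨i, hi1, hi2, hi3⟩ := key x hx hxS
        obtain ⟨i', hi1', hi2', hi3'⟩ := key y hy hyS
        rw [hi3, hi3']
        exact hh j (by omega) i i' hi1 hi1' hi2 hi2'

end Pool.Agent.Q295.TY
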