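import Pool.Agent.Q295.TY.Types

/-!
# Patterns which differ in exactly one set
-/

set_option autoImplicit false

namespace Pool.Agent.Q295.TY

open Finset
open Pool.Agent.TH138.NF (Homogeneous tow tow_mono nat_le_rpow)

/-- the tuple `x` followed by the last vertices -/
def ext {s : ℕ} (N k : ℕ) (x : Fin (s + 2) → ℕ) (i : Fin k) : ℕ :=
  if h : (i : ℕ) < s + 2 then x ⟨i, h⟩ else N - k + i

theorem pattern {κ : Type} (s k N : ℕ) (c : Finset ℕ → κ) (hk : s + 2 ≤ k) (hkN : k ≤ N)
    (x y : Fin (s + 2) → ℕ) (hx : ∀ i, x i < N) (hy : ∀ i, y i < N)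
    (h : Twins c (Ico (N - (k - (s + 2))) N) x y) :
    ∃ u v : Fin k → ℕ, StrictMono u ∧ StrictMono v ∧ (∀ i, u i < N) ∧ (∀ i, v i < N) ∧
      ∀ T : Finset (Fin k), T.card = s + 2 →
        (c (T.image u) ≠ c (T.image v) ↔ T = univ.filter (fun i : Fin k => (i : ℕ) < s + 2)) := by
  classical
  have hsmall : ∀ x : Fin (s + 2) → ℕ, (∀ i, x i < N) →
      (∀ i, x i ∉ Ico (N - (k - (s + 2))) N) → ∀ i, x i < N - (k - (s + 2)) := by
    intro x h1 h2 i
    have := h1 i
    have := h2 i
    rw [mem_Ico] at this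
    omega
  have hmono : ∀ x : Fin (s + 2) → ℕ, StrictMono x → (∀ i, x i < N - (k - (s + 2))) →
      StrictMono (ext N k x) := by
    intro x h1 h2 a b hab
    rw [Fin.lt_def] at hab
    unfold ext
    have := b.2
    by_cases hb : (b : ℕ) < s + 2
    · rw [dif_pos hb, dif_pos (by omega)]
      exact h1 (by rw [Fin.lt_def]; exact hab)
    · rw [dif_neg hb]
      by_cases ha : (a : ℕ) < s + 2
      · rw [dif_pos ha]
        have := h2 ⟨a, ha⟩
        omega
      · rw [dif_neg ha]
        omega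
  have hlt : ∀ x : Fin (s + 2) → ℕ, (∀ i, x i < N - (k - (s + 2))) → ∀ i, ext N k x i < N := by
    intro x h2 i
    unfold ext
    have := i.2
    by_cases hb : (i : ℕ) < s + 2
    · rw [dif_pos hb]
      have := h2 ⟨i, hb⟩
      omega
    · rw [dif_neg hb]
      omega
  have hx' := hsmall x hx h.outX
  have hy' := hsmall y hy h.outY
  refine ⟨ext N k x, ext N k y, hmono x h.monoX hx', hmono y h.monoY hy', hlt x hx', hlt y hy',
    fun T hT => ?_⟩
  have him : ∀ x : Fin (s + 2) → ℕ, T.image (ext N k x) =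
      (univ.filter (fun a : Fin (s + 2) => Fin.castLE hk a ∈ T)).image x ∪
        (T.filter (fun i : Fin k => ¬ (i : ℕ) < s + 2)).image (fun i : Fin k => N - k + (i : ℕ)) := by
    intro x
    ext u
    simp only [mem_image, mem_union, mem_filter, mem_univ, true_and]
    constructor
    · rintro ⟨i, hi, rfl⟩
      unfold ext
      by_cases hb : (i : ℕ) < s + 2
      · left
        rw [dif_pos hb]
        exact ⟨⟨i, hb⟩, hi, rfl⟩
      · right
        rw [dif_neg hb]
        exact ⟨i, ⟨hi, hb⟩, rfl⟩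
    · rintro (⟨a, ha, rfl⟩ | ⟨i, ⟨hi, hb⟩, rfl⟩)
      · refine ⟨Fin.castLE hk a, ha, ?_⟩
        unfold ext
        rw [dif_pos (show ((Fin.castLE hk a : Fin k) : ℕ) < s + 2 from a.2)]
        rfl
      · refine ⟨i, hi, ?_⟩
        unfold ext
        rw [dif_neg hb]
  have hfirst : (univ.filter (fun i : Fin k => (i : ℕ) < s + 2)).card = s + 2 := by
    have : (univ.filter (fun i : Fin k => (i : ℕ) < s + 2)) =
        (univ : Finset (Fin (s + 2))).map (Fin.castLEEmb hk) := by
      ext i
      simp only [mem_filter, mem_univ, true_and, mem_map]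
      constructor
      · intro hi
        exact ⟨⟨i, hi⟩, rfl⟩
      · rintro ⟨a, rfl⟩
        exact a.2
    rw [this, card_map, card_univ, Fintype.card_fin]
  set J := univ.filter (fun a : Fin (s + 2) => Fin.castLE hk a ∈ T) with hJ
  set L := (T.filter (fun i : Fin k => ¬ (i : ℕ) < s + 2)).image (fun i : Fin k => N - k + (i : ℕ)) with hL
  rw [him x, him y]
  constructor
  · intro hne
    by_contra hT1
    apply hne
    apply h.same J ?_ L ?_ ?_
    · intro hJu
      apply hT1
      symm
      apply eq_of_subset_of_card_le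
      · intro i hi
        have hi' := (mem_filter.1 hi).2
        have : (⟨i, hi'⟩ : Fin (s + 2)) ∈ J := by rw [hJu]; exact mem_univ _
        rw [hJ, mem_filter] at this
        exact this.2
      · rw [hfirst, hT]
    · intro u hu
      obtain ⟨i, hi, rfl⟩ := mem_image.1 hu
      have h1 := (mem_filter.1 hi).2
      have h2 := i.2
      rw [mem_Ico]
      omega
    · have e1 : J.card = (T.filter (fun i : Fin k => (i : ℕ) < s + 2)).card := by
        have : T.filter (fun i : Fin k => (i : ℕ) < s + 2) = J.map (Fin.castLEEmb hk) := by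
          ext i
          simp only [mem_filter, mem_map, hJ, mem_univ, true_and]
          constructor
          · rintro ⟨h1, h2⟩
            exact ⟨⟨i, h2⟩, h1, rfl⟩
          · rintro ⟨a, ha, rfl⟩
            exact ⟨ha, a.2⟩
        rw [this, card_map]
      have e2 : L.card = (T.filter (fun i : Fin k => ¬ (i : ℕ) < s + 2)).card := by
        apply card_image_of_injective
        intro a b hab
        apply Fin.ext
        simp only at hab
        omega
      rw [e1, e2, card_filter_add_card_filter_not, hT]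
  · intro hT1
    have hJu : J = univ := by
      ext a
      simp only [hJ, mem_filter, mem_univ, true_and, iff_true, hT1]
      exact a.2
    have hLe : L = ∅ := by
      rw [hL, image_eq_empty]
      ext i
      simp only [mem_filter, hT1, mem_univ, true_and, notMem_empty, iff_false, not_and, not_not]
      exact fun h => h
    rw [hJu, hLe, union_empty, union_empty]
    exact h.diff

/-- Two patterns with `k` vertices which differ in exactly one set. -/
theorem patterns (s : ℕ) : ∃ C : ℕ, 1 ≤ C ∧ ∀ q n N k : ℕ, 2 ≤ q → 1 ≤ n → s + 2 ≤ k →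
    twr s (q ^ (C * k) * n) ≤ N → ∀ c : Finset ℕ → Fin q,
      (∀ S ⊆ range N, S.card = n → ¬ Homogeneous (s + 2) c S) →
        ∃ u v : Fin k → ℕ, StrictMono u ∧ StrictMono v ∧ (∀ i, u i < N) ∧ (∀ i, v i < N) ∧
          ∀ T : Finset (Fin k), T.card = s + 2 →
            (c (T.image u) ≠ c (T.image v) ↔ T = univ.filter (fun i : Fin k => (i : ℕ) < s + 2)) := by
  obtain ⟨C, hC, h⟩ := twins s
  refine ⟨C, hC, fun q n N k hq hn hk hN c hc => ?_⟩
  have hkN : k ≤ N := by
    calc k ≤ 2 ^ k := Nat.lt_two_pow_self.le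
      _ ≤ q ^ k := Nat.pow_le_pow_left hq k
      _ ≤ q ^ (C * k) := Nat.pow_le_pow_right (by omega) (Nat.le_mul_of_pos_left k hC)
      _ ≤ q ^ (C * k) * n := Nat.le_mul_of_pos_right _ hn
      _ ≤ twr s (q ^ (C * k) * n) := le_twr _ _
      _ ≤ N := hN
  have hcard : (Ico (N - (k - (s + 2))) N).card = k - (s + 2) := by
    rw [Nat.card_Ico]
    omega
  obtain ⟨x, y, hx, hy, htw⟩ := h q n N hq hn (Ico (N - (k - (s + 2))) N)
    (fun u hu => mem_range.2 (mem_Ico.1 hu).2) (by
      refine le_trans (twr_mono s ?_) hN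
      rw [hcard]
      apply Nat.mul_le_mul_right
      apply Nat.pow_le_pow_right (by omega)
      apply Nat.mul_le_mul_left
      omega) c hc
  exact pattern s k N c hk hkN x y hx hy htw

/-- towers of full height -/
theorem patterns_full (s : ℕ) (ε : ℝ) (hε : 0 < ε) : ∃ δ : ℝ, 0 < δ ∧ ∃ n₀ : ℕ,
    ∀ n N q k : ℕ, n₀ ≤ n → 2 ≤ q → s + 2 ≤ k → tow (s + 1) (ε * n) ≤ N →
    (q : ℝ) ^ k ≤ 2 ^ (δ * n) → ∀ c : Finset ℕ → Fin q,
      (∀ S ⊆ range N, S.card = n → ¬ Homogeneous (s + 2) c S) →
        ∃ u v : Fin k → ℕ, StrictMono u ∧ StrictMono v ∧ (∀ i, u i < N) ∧ (∀ i, v i < N) ∧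
          ∀ T : Finset (Fin k), T.card = s + 2 →
            (c (T.image u) ≠ c (T.image v) ↔ T = univ.filter (fun i : Fin k => (i : ℕ) < s + 2)) := by
  obtain ⟨C, hC, h⟩ := patterns s
  obtain ⟨n₀, hn₀⟩ := nat_le_rpow (ε / 2) (by positivity)
  have hC' : (1 : ℝ) ≤ C := by exact_mod_cast hC
  refine ⟨ε / (2 * C), by positivity, max n₀ 1, fun n N q k hn hq hk hN hκ c hc => ?_⟩
  have hn1 : n₀ ≤ n := (le_max_left _ _).trans hn
  have hn2 : 1 ≤ n := (le_max_right _ _).trans hn
  refine h q n N k hq hn2 hk ?_ c hc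
  have h1 : ((twr s (q ^ (C * k) * n) : ℕ) : ℝ) ≤ N := by
    rw [twr_cast]
    refine le_trans ?_ hN
    rw [tow_two]
    apply tow_mono
    push_cast
    have h2 : (q : ℝ) ^ (C * k) ≤ 2 ^ (ε / 2 * n) := by
      rw [mul_comm, pow_mul]
      calc ((q : ℝ) ^ k) ^ C ≤ ((2 : ℝ) ^ (ε / (2 * C) * n)) ^ C :=
            pow_le_pow_left₀ (by positivity) hκ C
        _ = 2 ^ (ε / 2 * n) := by
            rw [← Real.rpow_natCast, ← Real.rpow_mul (by norm_num)]
            congr 1
            field_simp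
    calc (q : ℝ) ^ (C * k) * n ≤ 2 ^ (ε / 2 * n) * 2 ^ (ε / 2 * n) :=
          mul_le_mul h2 (hn₀ n hn1) (Nat.cast_nonneg _) (by positivity)
      _ = 2 ^ (ε * n) := by
          rw [← Real.rpow_add (by norm_num)]
          ring_nf
  exact_mod_cast h1

end Pool.Agent.Q295.TY
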