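import Pool.Agent.Q295.TY.Types
import Pool.Agent.TH138.NF.Main

/-!
# Sharpness: stepped-up colourings are determined by types over few vertices
-/

set_option autoImplicit false

namespace Pool.Agent.Q295.TY

open Finset Pool.Agent.TH138.NF

/-- The protocol `P` is determined by the values of `h` at the subsets with one vertex less. -/
def Det {s : ℕ} (P : Protocol (Bool × Bool) (s + 2)) (h : (Fin (s + 2) → ℕ) → ℕ) (N : ℕ) :
    Prop :=
  ∀ x x' : Fin (s + 3) → ℕ, StrictMono x → StrictMono x' → (∀ i, x i < N) → (∀ i, x' i < N) →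
    (∀ i : Fin (s + 3), h (i.removeNth x) = h (i.removeNth x')) → P.run x = P.run x'

theorem det_base (χ : ℕ → ℕ → Bool) (j : ℕ) :
    Det (s := 0) (base χ j) (fun y => D y 0 % 2 ^ j) (2 ^ 2 ^ j) := by
  intro x x' hx hx' hN hN' h
  have e0 : ∀ x : Fin 3 → ℕ, D ((Fin.last 2).removeNth x) 0 = D x 0 := by
    intro x; rw [D_init]; rfl
  have e1 : ∀ x : Fin 3 → ℕ, D ((0 : Fin 3).removeNth x) 0 = D x 1 := by
    intro x; rw [D_tail]; rfl
  have hlt : ∀ x : Fin 3 → ℕ, StrictMono x → (∀ i, x i < 2 ^ 2 ^ j) →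
      D x 0 < 2 ^ j ∧ D x 1 < 2 ^ j := fun x hx h =>
    ⟨hd_lt (hx Fin.castSucc_lt_succ) (h _), hd_lt (hx Fin.castSucc_lt_succ) (h _)⟩
  have h0 := h (Fin.last 2)
  have h1 := h 0
  simp only [e0, e1] at h0 h1
  rw [Nat.mod_eq_of_lt (hlt x hx hN).1, Nat.mod_eq_of_lt (hlt x' hx' hN').1] at h0
  rw [Nat.mod_eq_of_lt (hlt x hx hN).2, Nat.mod_eq_of_lt (hlt x' hx' hN').2] at h1
  rw [run_base χ j x hx hN, run_base χ j x' hx' hN', h0, h1]

open Classical in
/-- the function of the stepped-up colouring -/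
noncomputable def hstep {s : ℕ} (h : (Fin (s + 2) → ℕ) → ℕ) (y : Fin (s + 3) → ℕ) : ℕ :=
  if StrictMono (D y) then 4 * h (D y)
  else if StrictAnti (D y) then 4 * h (fun i => D y i.rev) + 1
  else if D y 0 < D y 1 then 2 else 3

theorem not_both {s : ℕ} (d : Fin (s + 2) → ℕ) (h1 : StrictMono d) (h2 : StrictAnti d) : False := by
  have e1 := h1 (a := 0) (b := 1) (by simp)
  have e2 := h2 (a := 0) (b := 1) (by simp)
  exact lt_asymm e1 e2

theorem hstep_mod {s : ℕ} (h : (Fin (s + 2) → ℕ) → ℕ) (y : Fin (s + 3) → ℕ) :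
    (StrictMono (D y) ↔ hstep h y % 4 = 0) ∧ (StrictAnti (D y) ↔ hstep h y % 4 = 1) ∧
      (D y 0 < D y 1 ↔ hstep h y % 4 = 0 ∨ hstep h y % 4 = 2) := by
  classical
  unfold hstep
  by_cases h1 : StrictMono (D y)
  · have h2 : ¬ StrictAnti (D y) := fun h => not_both _ h1 h
    have h3 : D y 0 < D y 1 := h1 (by simp)
    rw [if_pos h1]
    refine ⟨⟨fun _ => by omega, fun _ => h1⟩, ⟨fun h => absurd h h2, fun h => by omega⟩,
      ⟨fun _ => Or.inl (by omega), fun _ => h3⟩⟩
  · rw [if_neg h1]
    by_cases h2 : StrictAnti (D y)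
    · have h3 : D y 1 < D y 0 := h2 (by simp)
      rw [if_pos h2]
      refine ⟨⟨fun h => absurd h h1, fun h => by omega⟩, ⟨fun _ => by omega, fun _ => h2⟩,
        ⟨fun h => by omega, fun h => by omega⟩⟩
    · rw [if_neg h2]
      by_cases h3 : D y 0 < D y 1
      · rw [if_pos h3]
        refine ⟨⟨fun h => absurd h h1, fun h => by omega⟩, ⟨fun h => absurd h h2, fun h => by omega⟩,
          ⟨fun _ => Or.inr (by omega), fun _ => h3⟩⟩
      · rw [if_neg h3]
        refine ⟨⟨fun h => absurd h h1, fun h => by omega⟩, ⟨fun h => absurd h h2, fun h => by omega⟩,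
          ⟨fun h => absurd h h3, fun h => by omega⟩⟩

theorem mono_of {s : ℕ} (x : Fin (s + 4) → ℕ)
    (h0 : StrictMono (D ((Fin.last (s + 3)).removeNth x)))
    (h1 : StrictMono (D ((0 : Fin (s + 4)).removeNth x))) : StrictMono (D x) := by
  rw [Fin.strictMono_iff_lt_succ]
  intro i
  refine Fin.cases ?_ (fun i => ?_) i
  · have := h0 (a := 0) (b := 1) (by simp)
    rw [D_init, D_init] at this
    exact this
  · have := h1 (a := i.castSucc) (b := i.succ) Fin.castSucc_lt_succ
    rw [D_tail, D_tail] at this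
    exact this

theorem anti_of {s : ℕ} (x : Fin (s + 4) → ℕ)
    (h0 : StrictAnti (D ((Fin.last (s + 3)).removeNth x)))
    (h1 : StrictAnti (D ((0 : Fin (s + 4)).removeNth x))) : StrictAnti (D x) := by
  rw [Fin.strictAnti_iff_succ_lt]
  intro i
  refine Fin.cases ?_ (fun i => ?_) i
  · have := h0 (a := 0) (b := 1) (by simp)
    rw [D_init, D_init] at this
    exact this
  · have := h1 (a := i.castSucc) (b := i.succ) Fin.castSucc_lt_succ
    rw [D_tail, D_tail] at this
    exact this

theorem mono_rem {m : ℕ} (d : Fin (m + 1) → ℕ) (hd : StrictMono d) (i : Fin (m + 1)) :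
    StrictMono (i.removeNth d) := by
  intro a b hab
  simp only [Fin.removeNth_apply]
  exact hd (Fin.succAbove_lt_succAbove_iff.2 hab)

theorem anti_rem {m : ℕ} (d : Fin (m + 1) → ℕ) (hd : StrictAnti d) (i : Fin (m + 1)) :
    StrictAnti (i.removeNth d) := by
  intro a b hab
  simp only [Fin.removeNth_apply]
  exact hd (Fin.succAbove_lt_succAbove_iff.2 hab)

theorem det_step {s N : ℕ} (P : Protocol (Bool × Bool) (s + 2)) (h : (Fin (s + 2) → ℕ) → ℕ)
    (hP : Det P h N) : Det (s := s + 1) P.step (hstep h) (2 ^ N) := by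
  classical
  intro x x' hx hx' hN hN' hh
  have m0 := hstep_mod h ((Fin.last (s + 3)).removeNth x)
  have m0' := hstep_mod h ((Fin.last (s + 3)).removeNth x')
  have m1 := hstep_mod h ((0 : Fin (s + 4)).removeNth x)
  have m1' := hstep_mod h ((0 : Fin (s + 4)).removeNth x')
  rw [← hh (Fin.last (s + 3))] at m0'
  rw [← hh 0] at m1'
  have hDlt : ∀ x : Fin (s + 4) → ℕ, StrictMono x → (∀ i, x i < 2 ^ N) → ∀ i, D x i < N :=
    fun x hx h i => hd_lt (hx Fin.castSucc_lt_succ) (h _)
  by_cases hA : StrictMono (D ((Fin.last (s + 3)).removeNth x)) ∧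
      StrictMono (D ((0 : Fin (s + 4)).removeNth x))
  · have hA' : StrictMono (D ((Fin.last (s + 3)).removeNth x')) ∧
        StrictMono (D ((0 : Fin (s + 4)).removeNth x')) :=
      ⟨m0'.1.2 (m0.1.1 hA.1), m1'.1.2 (m1.1.1 hA.2)⟩
    have hD := mono_of x hA.1 hA.2
    have hD' := mono_of x' hA'.1 hA'.2
    rw [run_inc P x hx hD, run_inc P x' hx' hD']
    refine hP _ _ hD hD' (hDlt x hx hN) (hDlt x' hx' hN') (fun i => ?_)
    have h1 := hh i.succ
    have h2 : StrictMono (D (i.succ.removeNth x)) := by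
      rw [D_succ x hx hD]; exact mono_rem _ hD i
    have h2' : StrictMono (D (i.succ.removeNth x')) := by
      rw [D_succ x' hx' hD']; exact mono_rem _ hD' i
    unfold hstep at h1
    rw [if_pos h2, if_pos h2', D_succ x hx hD, D_succ x' hx' hD'] at h1
    omega
  · by_cases hB : StrictAnti (D ((Fin.last (s + 3)).removeNth x)) ∧
        StrictAnti (D ((0 : Fin (s + 4)).removeNth x))
    · have hB' : StrictAnti (D ((Fin.last (s + 3)).removeNth x')) ∧
          StrictAnti (D ((0 : Fin (s + 4)).removeNth x')) :=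
        ⟨m0'.2.1.2 (m0.2.1.1 hB.1), m1'.2.1.2 (m1.2.1.1 hB.2)⟩
      have hD := anti_of x hB.1 hB.2
      have hD' := anti_of x' hB'.1 hB'.2
      rw [run_dec P x hx hD, run_dec P x' hx' hD']
      have hrev : ∀ d : Fin (s + 3) → ℕ, StrictAnti d →
          StrictMono (fun i : Fin (s + 3) => d i.rev) := by
        intro d hd a b hab
        exact hd (Fin.rev_lt_rev.2 hab)
      refine hP _ _ (hrev _ hD) (hrev _ hD') (fun i => hDlt x hx hN _)
        (fun i => hDlt x' hx' hN' _) (fun i => ?_)
      have h1 := hh i.rev.castSucc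
      have h2 : StrictAnti (D (i.rev.castSucc.removeNth x)) := by
        rw [D_castSucc x hx hD]; exact anti_rem _ hD i.rev
      have h2' : StrictAnti (D (i.rev.castSucc.removeNth x')) := by
        rw [D_castSucc x' hx' hD']; exact anti_rem _ hD' i.rev
      have hsw : ∀ d : Fin (s + 3) → ℕ, (fun a : Fin (s + 2) => i.rev.removeNth d a.rev) =
          i.removeNth (fun a => d a.rev) := by
        intro d
        funext a
        rw [Fin.removeNth_apply, Fin.removeNth_apply, Fin.rev_succAbove]
      unfold hstep at h1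
      rw [if_neg (fun h => not_both _ h h2), if_pos h2, if_neg (fun h => not_both _ h h2'),
        if_pos h2', D_castSucc x hx hD, D_castSucc x' hx' hD', hsw, hsw] at h1
      omega
    · have hA' : ¬ (StrictMono (D ((Fin.last (s + 3)).removeNth x')) ∧
          StrictMono (D ((0 : Fin (s + 4)).removeNth x'))) := fun h =>
        hA ⟨m0.1.2 (m0'.1.1 h.1), m1.1.2 (m1'.1.1 h.2)⟩
      have hB' : ¬ (StrictAnti (D ((Fin.last (s + 3)).removeNth x')) ∧
          StrictAnti (D ((0 : Fin (s + 4)).removeNth x'))) := fun h =>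
        hB ⟨m0.2.1.2 (m0'.2.1.1 h.1), m1.2.1.2 (m1'.2.1.1 h.2)⟩
      rw [run_loc P x hA hB, run_loc P x' hA' hB']
      have e0 : (D ((Fin.last (s + 3)).removeNth x) 0 < D ((Fin.last (s + 3)).removeNth x) 1) ↔
          (D ((Fin.last (s + 3)).removeNth x') 0 < D ((Fin.last (s + 3)).removeNth x') 1) :=
        m0.2.2.trans m0'.2.2.symm
      have e1 : (D ((0 : Fin (s + 4)).removeNth x) 0 < D ((0 : Fin (s + 4)).removeNth x) 1) ↔
          (D ((0 : Fin (s + 4)).removeNth x') 0 < D ((0 : Fin (s + 4)).removeNth x') 1) :=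
        m1.2.2.trans m1'.2.2.symm
      have hne : ∀ x : Fin (s + 4) → ℕ, StrictMono x →
          D ((0 : Fin (s + 4)).removeNth x) 0 ≠ D ((0 : Fin (s + 4)).removeNth x) 1 := by
        intro x hx
        rw [D_tail, D_tail]
        exact (hd_delta (x := x ⟨1, by omega⟩) (y := x ⟨2, by omega⟩) (z := x ⟨3, by omega⟩)
          (hx (by simp [Fin.lt_def])) (hx (by simp [Fin.lt_def]))).1
      have e2 : (D ((0 : Fin (s + 4)).removeNth x) 1 < D ((0 : Fin (s + 4)).removeNth x) 0) ↔
          (D ((0 : Fin (s + 4)).removeNth x') 1 < D ((0 : Fin (s + 4)).removeNth x') 0) := by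
        have := hne x hx
        have := hne x' hx'
        omega
      simp only [loc, Protocol.run, e0, e2]

theorem det (j : ℕ) : ∀ s : ℕ, ∃ (P : Protocol (Bool × Bool) (s + 2))
    (h : (Fin (s + 2) → ℕ) → ℕ), (∀ y, h y < 2 ^ (j + 2 * s)) ∧ Det P h (Mn j s) ∧
      ∃ n, 2 ≤ n ∧ n ≤ 2 ^ s * (4 * j + s + 5) ∧
        ∀ S ⊆ range (Mn j s), S.card = n → ¬ Hom P S := by
  intro s
  induction s with
  | zero =>
    obtain ⟨χ, hχ⟩ := base_lower j
    exact ⟨base χ j, _, fun y => Nat.mod_lt _ (by positivity), det_base χ j, 4 * j + 5, by omega,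
      by omega, hχ⟩
  | succ s ih =>
    obtain ⟨P, h, hlt, hdet, n, hn2, hn, hP⟩ := ih
    refine ⟨P.step, hstep h, ?_, det_step P h hdet, 2 * n + s, by omega, ?_,
      step_lower P (Mn j s) n hn2 hP⟩
    · intro y
      classical
      have e : 2 ^ (j + 2 * (s + 1)) = 4 * 2 ^ (j + 2 * s) := by
        rw [show j + 2 * (s + 1) = j + 2 * s + 2 by ring, pow_add]
        ring
      have h1 : 1 ≤ 2 ^ (j + 2 * s) := Nat.one_le_two_pow
      rw [e]
      unfold hstep
      split_ifs
      · have := hlt (D y); omega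
      · have := hlt (fun i => D y i.rev); omega
      · omega
      · omega
    · have h1 : s ≤ 2 ^ s := Nat.lt_two_pow_self.le
      calc 2 * n + s ≤ 2 * (2 ^ s * (4 * j + s + 5)) + 2 ^ s := by omega
        _ ≤ 2 ^ (s + 1) * (4 * j + (s + 1) + 5) := by
          rw [pow_succ]
          nlinarith

open Classical in
/-- the colouring -/
noncomputable def col {s : ℕ} (P : Protocol (Bool × Bool) (s + 2)) (h : (Fin (s + 2) → ℕ) → ℕ)
    (N : ℕ) (A : Finset ℕ) : Bool × Bool :=
  if h1 : (A.filter (· < N)).card = s + 3 then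
    P.run (fun i => (A.filter (· < N)).orderEmbOfFin h1 i)
  else if h2 : (A.filter (· < N)).card = s + 2 then
    ((h (fun i => (A.filter (· < N)).orderEmbOfFin h2 i)).testBit
      ((A.filter (fun v => N ≤ v)).sup id - N), false)
  else (false, false)

theorem col_run {s : ℕ} (P : Protocol (Bool × Bool) (s + 2)) (h : (Fin (s + 2) → ℕ) → ℕ)
    (N : ℕ) (x : Fin (s + 3) → ℕ) (hx : StrictMono x) (hN : ∀ i, x i < N) :
    col P h N (univ.image x) = P.run x := by
  have hf : (univ.image x).filter (· < N) = univ.image x := by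
    apply filter_true_of_mem
    intro u hu
    obtain ⟨i, _, rfl⟩ := mem_image.1 hu
    exact hN i
  have hcard : ((univ.image x).filter (· < N)).card = s + 3 := by
    rw [hf, card_image_of_injective _ hx.injective, card_univ, Fintype.card_fin]
  unfold col
  rw [dif_pos hcard]
  congr 1
  symm
  apply orderEmbOfFin_unique hcard (fun i => ?_) hx
  rw [hf]
  exact mem_image_of_mem _ (mem_univ _)

theorem col_bit {s : ℕ} (P : Protocol (Bool × Bool) (s + 2)) (h : (Fin (s + 2) → ℕ) → ℕ)
    (N : ℕ) (z : Fin (s + 2) → ℕ) (hz : StrictMono z) (hN : ∀ i, z i < N) (t : ℕ) :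
    col P h N (univ.image z ∪ {N + t}) = ((h z).testBit t, false) := by
  have hf : (univ.image z ∪ {N + t}).filter (· < N) = univ.image z := by
    ext u
    simp only [mem_filter, mem_union, mem_image, mem_univ, true_and, mem_singleton]
    constructor
    · rintro ⟨h1 | h1, h2⟩
      · exact h1
      · omega
    · rintro ⟨i, rfl⟩
      exact ⟨Or.inl ⟨i, rfl⟩, hN i⟩
  have hg : (univ.image z ∪ {N + t}).filter (fun v => N ≤ v) = {N + t} := by
    ext u
    simp only [mem_filter, mem_union, mem_image, mem_univ, true_and, mem_singleton]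
    constructor
    · rintro ⟨⟨i, rfl⟩ | h1, h2⟩
      · have := hN i; omega
      · exact h1
    · rintro rfl
      exact ⟨Or.inr rfl, by omega⟩
  have hcard : ((univ.image z ∪ {N + t}).filter (· < N)).card = s + 2 := by
    rw [hf, card_image_of_injective _ hz.injective, card_univ, Fintype.card_fin]
  unfold col
  rw [dif_neg (by omega), dif_pos hcard, hg]
  have e : (fun i => ((univ.image z ∪ {N + t}).filter (· < N)).orderEmbOfFin hcard i) = z := by
    symm
    apply orderEmbOfFin_unique hcard (fun i => ?_) hz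
    rw [hf]
    exact mem_image_of_mem _ (mem_univ _)
  rw [e]
  simp

/-- **Sharpness.** -/
theorem sharp (s j : ℕ) : ∃ N : ℕ, (N : ℝ) = tow (s + 2) j ∧ ∃ c : Finset ℕ → Bool × Bool,
    (∀ S ⊆ range (N + (j + 2 * s)), S.card = 2 ^ s * (4 * j + s + 5) + (j + 2 * s) →
      ¬ Homogeneous (s + 3) c S) ∧
    ∀ x y : Fin (s + 3) → ℕ, (∀ i, x i < N + (j + 2 * s)) → (∀ i, y i < N + (j + 2 * s)) →
      ¬ Twins c (Ico N (N + (j + 2 * s))) x y := by
  classical
  obtain ⟨P, h, hlt, hdet, n, -, hn, hP⟩ := det j s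
  set N := Mn j s with hN
  set b := j + 2 * s with hb
  refine ⟨N, Mn_tow j s, col P h N, ?_, ?_⟩
  · intro S hS hc hhom
    have h1 : n ≤ (S.filter (· < N)).card := by
      have e := card_filter_add_card_filter_not (s := S) (fun u => u < N)
      have e2 : (S.filter (fun u => ¬ u < N)).card ≤ b := by
        calc (S.filter (fun u => ¬ u < N)).card ≤ (Ico N (N + b)).card := by
              apply card_le_card
              intro u hu
              rw [mem_filter] at hu
              have := mem_range.1 (hS hu.1)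
              rw [mem_Ico]
              omega
          _ = b := by simp
      omega
    obtain ⟨T, hT, hTc⟩ := exists_subset_card_eq h1
    have hTS : T ⊆ S := hT.trans (filter_subset _ _)
    have hTN : ∀ u ∈ T, u < N := fun u hu => (mem_filter.1 (hT hu)).2
    refine hP T (fun u hu => mem_range.2 (hTN u hu)) hTc ?_
    intro x y hx hy hxT hyT
    rw [← col_run P h N x hx (fun i => hTN _ (hxT i)), ← col_run P h N y hy (fun i => hTN _ (hyT i))]
    have hsub : ∀ x : Fin (s + 3) → ℕ, (∀ i, x i ∈ T) → univ.image x ⊆ S := by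
      intro x hx u hu
      obtain ⟨i, _, rfl⟩ := mem_image.1 hu
      exact hTS (hx i)
    have hcd : ∀ x : Fin (s + 3) → ℕ, StrictMono x → (univ.image x).card = s + 3 := by
      intro x hx
      rw [card_image_of_injective _ hx.injective, card_univ, Fintype.card_fin]
    exact hhom _ (hsub x hxT) _ (hsub y hyT) (hcd x hx) (hcd y hy)
  · intro x y hxb hyb htw
    have hout : ∀ x : Fin (s + 3) → ℕ, (∀ i, x i < N + b) → (∀ i, x i ∉ Ico N (N + b)) →
        ∀ i, x i < N := by
      intro x h1 h2 i
      have := h1 i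
      have := h2 i
      rw [mem_Ico] at this
      omega
    have hxN := hout x hxb htw.outX
    have hyN := hout y hyb htw.outY
    apply htw.diff
    rw [col_run P h N x htw.monoX hxN, col_run P h N y htw.monoY hyN]
    refine hdet x y htw.monoX htw.monoY hxN hyN (fun i => ?_)
    have him : ∀ x : Fin (s + 3) → ℕ, (univ.erase i).image x = univ.image (i.removeNth x) := by
      intro x
      have : (univ : Finset (Fin (s + 3))).erase i = univ.image i.succAbove := by
        ext a
        simp only [mem_erase, mem_univ, and_true, mem_image, true_and]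
        exact (Fin.exists_succAbove_eq_iff).symm
      rw [this, image_image]
      rfl
    apply Nat.eq_of_testBit_eq
    intro t
    by_cases ht : t < b
    · have h2 := htw.same (univ.erase i) (by
        intro h
        have := mem_univ i
        rw [← h] at this
        simp at this) {N + t} (by
        intro u hu
        rw [mem_singleton] at hu
        rw [mem_Ico]
        omega) (by
        rw [card_erase_of_mem (mem_univ i), card_univ, Fintype.card_fin, card_singleton]
        omega)
      rw [him x, him y, col_bit P h N _ (mono_rem _ htw.monoX i) (fun a => hxN _),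
        col_bit P h N _ (mono_rem _ htw.monoY i) (fun a => hyN _)] at h2
      exact congrArg Prod.fst h2
    · have h3 : 2 ^ b ≤ 2 ^ t := Nat.pow_le_pow_right (by norm_num) (by omega)
      rw [Nat.testBit_lt_two_pow (lt_of_lt_of_le (hlt _) h3),
        Nat.testBit_lt_two_pow (lt_of_lt_of_le (hlt _) h3)]

end Pool.Agent.Q295.TY
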