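import Pool.Agent.Q295.TY.Bound
import Pool.Agent.TH138.NF.Asym

/-!
# Types over a set of vertices
-/

set_option autoImplicit false

namespace Pool.Agent.Q295.TY

open Finset
open Pool.Agent.TH138.NF (Homogeneous tow tow_mono nat_le_rpow)

/-- Let `x` and `y` be two `r`-sets of vertices outside `K`, listed in increasing order. They are
*twins over `K`* if the order isomorphism from `x ∪ K` to `y ∪ K` maps `x` to `y` and fixes `K`, if
it preserves the colours of all `r`-subsets of `x ∪ K` except `x`, and if `x` and `y` have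
different colours. -/
structure Twins {κ : Type} {r : ℕ} (c : Finset ℕ → κ) (K : Finset ℕ) (x y : Fin r → ℕ) :
    Prop where
  monoX : StrictMono x
  monoY : StrictMono y
  outX : ∀ i, x i ∉ K
  outY : ∀ i, y i ∉ K
  gaps : ∀ i, ∀ v ∈ K, (x i < v ↔ y i < v)
  same : ∀ J : Finset (Fin r), J ≠ univ → ∀ L ⊆ K, J.card + L.card = r →
    c (J.image x ∪ L) = c (J.image y ∪ L)
  diff : c (univ.image x) ≠ c (univ.image y)

theorem gap_aux (K : Finset ℕ) (a b : ℕ) (ha : a ∉ K) (hb : b ∉ K)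
    (h : (K.filter (· < a)).card = (K.filter (· < b)).card) : ∀ v ∈ K, (a < v ↔ b < v) := by
  have key : ∀ a b : ℕ, a ≤ b → (K.filter (· < a)).card = (K.filter (· < b)).card →
      ∀ v ∈ K, (v < a ↔ v < b) := by
    intro a b hab h v hv
    have hsub : K.filter (· < a) ⊆ K.filter (· < b) := by
      intro u hu
      rw [mem_filter] at hu ⊢
      exact ⟨hu.1, lt_of_lt_of_le hu.2 hab⟩
    have heq := eq_of_subset_of_card_le hsub h.ge
    constructor
    · intro h1
      exact lt_of_lt_of_le h1 hab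
    · intro h1
      have : v ∈ K.filter (· < b) := mem_filter.2 ⟨hv, h1⟩
      rw [← heq] at this
      exact (mem_filter.1 this).2
  intro v hv
  have hva : v ≠ a := fun e => ha (e ▸ hv)
  have hvb : v ≠ b := fun e => hb (e ▸ hv)
  have h1 : v < a ↔ v < b := by
    rcases le_total a b with hab | hab
    · exact key a b hab h v hv
    · exact (key b a hab h.symm v hv).symm
  constructor
  · intro h2
    by_contra h3
    have : v < b := by omega
    have := h1.2 this
    omega
  · intro h2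
    by_contra h3
    have : v < a := by omega
    have := h1.1 this
    omega

/-- the number of types -/
theorem card_type (q κ t : ℕ) (hq : 2 ≤ q) :
    q ^ (κ.choose t) * (κ + 1) ≤ 2 ^ (q ^ (2 * (κ + 1))) := by
  have h1 : κ.choose t ≤ q ^ κ := by
    calc κ.choose t ≤ 2 ^ κ := Nat.choose_le_two_pow κ t
      _ ≤ q ^ κ := Nat.pow_le_pow_left hq κ
  have h2 : q ^ (κ.choose t) ≤ 2 ^ (q ^ (κ + 1)) := by
    calc q ^ (κ.choose t) ≤ q ^ (q ^ κ) := Nat.pow_le_pow_right (by omega) h1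
      _ ≤ (2 ^ q) ^ (q ^ κ) := Nat.pow_le_pow_left Nat.lt_two_pow_self.le _
      _ = 2 ^ (q ^ (κ + 1)) := by rw [← pow_mul, pow_succ']
  have h3 : κ + 1 ≤ 2 ^ (q ^ (κ + 1)) := by
    calc κ + 1 ≤ 2 ^ κ := Nat.lt_two_pow_self
      _ ≤ 2 ^ (q ^ (κ + 1)) := by
        apply Nat.pow_le_pow_right (by norm_num)
        calc κ ≤ 2 ^ κ := Nat.lt_two_pow_self.le
          _ ≤ q ^ κ := Nat.pow_le_pow_left hq κ
          _ ≤ q ^ (κ + 1) := Nat.pow_le_pow_right (by omega) (by omega)
  calc q ^ (κ.choose t) * (κ + 1) ≤ 2 ^ (q ^ (κ + 1)) * 2 ^ (q ^ (κ + 1)) := Nat.mul_le_mul h2 h3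
    _ = 2 ^ (2 * q ^ (κ + 1)) := by rw [← pow_add, two_mul]
    _ ≤ 2 ^ (q ^ (2 * (κ + 1))) := by
      apply Nat.pow_le_pow_right (by norm_num)
      calc 2 * q ^ (κ + 1) ≤ q * q ^ (κ + 1) := Nat.mul_le_mul_right _ hq
        _ = q ^ (κ + 2) := by rw [← pow_succ']
        _ ≤ q ^ (2 * (κ + 1)) := Nat.pow_le_pow_right (by omega) (by omega)

theorem card_type_one (q κ : ℕ) (hq : 2 ≤ q) :
    q ^ (κ.choose 1) * (κ + 1) ≤ q ^ (2 * (κ + 1)) := by
  rw [Nat.choose_one_right]
  calc q ^ κ * (κ + 1) ≤ q ^ κ * q ^ κ := by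
        apply Nat.mul_le_mul_left
        calc κ + 1 ≤ 2 ^ κ := Nat.lt_two_pow_self
          _ ≤ q ^ κ := Nat.pow_le_pow_left hq κ
    _ = q ^ (κ + κ) := (pow_add _ _ _).symm
    _ ≤ q ^ (2 * (κ + 1)) := Nat.pow_le_pow_right (by omega) (by omega)

/-- **Twins.** -/
theorem twins (s : ℕ) : ∃ C : ℕ, 1 ≤ C ∧ ∀ q n N : ℕ, 2 ≤ q → 1 ≤ n →
    ∀ K ⊆ range N, twr s (q ^ (C * (K.card + 1)) * n) ≤ N → ∀ c : Finset ℕ → Fin q,
      (∀ S ⊆ range N, S.card = n → ¬ Homogeneous (s + 2) c S) →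
        ∃ x y : Fin (s + 2) → ℕ, (∀ i, x i < N) ∧ (∀ i, y i < N) ∧ Twins c K x y := by
  classical
  obtain ⟨C, hC, hb⟩ := bound s
  refine ⟨C + 5, by omega, fun q n N hq hn K hK hN c hc => ?_⟩
  set κ := K.card with hκ
  let Λ : ℕ → Type := fun j => ((K.powersetCard (s + 1 - j)) → Fin q) × Fin (κ + 1)
  have hΛ : ∀ j, Fintype.card (Λ j) = q ^ (κ.choose (s + 1 - j)) * (κ + 1) := by
    intro j
    simp [Λ, hκ]
  let χ : (j : ℕ) → (Fin (j + 1) → ℕ) → Λ j := fun j z =>
    (fun L => c (univ.image z ∪ L.1), ⟨(K.filter (· < z 0)).card,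
      Nat.lt_succ_of_le (card_filter_le _ _)⟩)
  set Y := q ^ (2 * (κ + 1)) with hY
  have hY1 : 1 ≤ Y := Nat.one_le_pow _ _ (by omega)
  have hF := hb (fun j => Fintype.card (Λ j)) Y n hY1 hn
    (fun j _ => by rw [hΛ]; exact card_type q κ _ hq)
    (by
      simp only [hΛ]
      rw [show s + 1 - s = 1 by omega]
      exact card_type_one q κ hq)
  have hV : F s (fun j => Fintype.card (Λ j)) n ≤ (range N \ K).card := by
    rw [card_sdiff_of_subset hK, card_range]
    have h1 : κ ≤ Y ^ 2 * n := by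
      calc κ ≤ 2 ^ κ := Nat.lt_two_pow_self.le
        _ ≤ q ^ κ := Nat.pow_le_pow_left hq κ
        _ ≤ Y := Nat.pow_le_pow_right (by omega) (by omega)
        _ ≤ Y ^ 2 := Nat.le_self_pow (by norm_num) Y
        _ ≤ Y ^ 2 * n := Nat.le_mul_of_pos_right _ hn
    have h2 : twr s (C * (Y ^ 2 * n)) + κ ≤ N := by
      refine le_trans (twr_add s _ _) (le_trans (twr_mono s ?_) hN)
      calc C * (Y ^ 2 * n) + κ ≤ C * (Y ^ 2 * n) + 1 * (Y ^ 2 * n) := by omega
        _ = (C + 1) * Y ^ 2 * n := by ring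
        _ ≤ q ^ (C + 1) * Y ^ 2 * n := by
            apply Nat.mul_le_mul_right
            apply Nat.mul_le_mul_right
            calc C + 1 ≤ 2 ^ (C + 1) := Nat.lt_two_pow_self.le
              _ ≤ q ^ (C + 1) := Nat.pow_le_pow_left hq _
        _ = q ^ (C + 1 + 4 * (κ + 1)) * n := by
            rw [hY, ← pow_mul, ← pow_add]
            congr 2
            ring
        _ ≤ q ^ ((C + 5) * (κ + 1)) * n := by
            apply Nat.mul_le_mul_right
            apply Nat.pow_le_pow_right (by omega)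
            nlinarith
    omega
  obtain ⟨S, hS, hSc, hh⟩ := multi n s Λ χ (range N \ K) hV
  have hSN : S ⊆ range N := hS.trans sdiff_subset
  have hnot := hc S hSN hSc
  unfold Homogeneous at hnot
  push Not at hnot
  obtain ⟨A, hA, B, hB, hAc, hBc, hAB⟩ := hnot
  set x : Fin (s + 2) → ℕ := fun i => A.orderEmbOfFin hAc i with hx
  set y : Fin (s + 2) → ℕ := fun i => B.orderEmbOfFin hBc i with hy
  have hxm : StrictMono x := (A.orderEmbOfFin hAc).strictMono
  have hym : StrictMono y := (B.orderEmbOfFin hBc).strictMono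
  have hxS : ∀ i, x i ∈ S := fun i => hA (A.orderEmbOfFin_mem hAc i)
  have hyS : ∀ i, y i ∈ S := fun i => hB (B.orderEmbOfFin_mem hBc i)
  have hxA : univ.image x = A := by
    rw [← coe_inj, coe_image, coe_univ, Set.image_univ]
    exact range_orderEmbOfFin A hAc
  have hyB : univ.image y = B := by
    rw [← coe_inj, coe_image, coe_univ, Set.image_univ]
    exact range_orderEmbOfFin B hBc
  have hxK : ∀ i, x i ∉ K := fun i => (mem_sdiff.1 (hS (hxS i))).2
  have hyK : ∀ i, y i ∉ K := fun i => (mem_sdiff.1 (hS (hyS i))).2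
  refine ⟨x, y, fun i => mem_range.1 (hSN (hxS i)), fun i => mem_range.1 (hSN (hyS i)),
    hxm, hym, hxK, hyK, ?_, ?_, by rw [hxA, hyB]; exact hAB⟩
  · intro i
    have hm : ∀ u : ℕ, StrictMono (fun _ : Fin (0 + 1) => u) := by
      intro u a b hab
      exfalso
      have := a.2
      have := b.2
      rw [Fin.lt_def] at hab
      omega
    have h1 := hh 0 (Nat.zero_le s) (fun _ => x i) (fun _ => y i) (hm _) (hm _)
      (fun _ => hxS i) (fun _ => hyS i)
    have h2 := congrArg (fun p => (p.2 : ℕ)) h1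
    exact gap_aux K (x i) (y i) (hxK i) (hyK i) h2
  · intro J hJ L hL hcard
    rcases J.eq_empty_or_nonempty with rfl | hne
    · simp
    · have hJ1 : 1 ≤ J.card := card_pos.2 hne
      have hJ2 : J.card < s + 2 := by
        have h1 : J.card ≤ s + 2 := by simpa using card_le_univ J
        rcases Nat.lt_or_eq_of_le h1 with h | h
        · exact h
        · exact absurd (eq_univ_of_card J (by simpa using h)) hJ
      obtain ⟨j, hj⟩ : ∃ j, J.card = j + 1 := ⟨J.card - 1, by omega⟩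
      have hLm : L ∈ K.powersetCard (s + 1 - j) := mem_powersetCard.2 ⟨hL, by omega⟩
      have him : ∀ z : Fin (s + 2) → ℕ,
          univ.image (fun a : Fin (j + 1) => z (J.orderEmbOfFin hj a)) = J.image z := by
        intro z
        have : (univ.image (fun a : Fin (j + 1) => J.orderEmbOfFin hj a)) = J := by
          rw [← coe_inj, coe_image, coe_univ, Set.image_univ]
          exact range_orderEmbOfFin J hj
        conv_rhs => rw [← this, image_image]
        rfl
      have h1 := hh j (by omega) (fun a => x (J.orderEmbOfFin hj a))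
        (fun a => y (J.orderEmbOfFin hj a))
        (hxm.comp (J.orderEmbOfFin hj).strictMono) (hym.comp (J.orderEmbOfFin hj).strictMono)
        (fun a => hxS _) (fun a => hyS _)
      have h2 := congrFun (congrArg Prod.fst h1) ⟨L, hLm⟩
      simp only [χ] at h2
      rw [him x, him y] at h2
      exact h2

theorem twr_cast (k x : ℕ) : (twr k x : ℝ) = tow k x := by
  induction k with
  | zero => rfl
  | succ k ih =>
    simp only [twr, tow]
    rw [← ih, Real.rpow_natCast]
    push_cast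
    rfl

theorem tow_two (k : ℕ) (x : ℝ) : tow (k + 1) x = tow k (2 ^ x) := by
  induction k with
  | zero => rfl
  | succ k ih =>
    show (2 : ℝ) ^ tow (k + 1) x = 2 ^ tow k (2 ^ x)
    rw [ih]

/-- towers of full height -/
theorem twins_full (s : ℕ) (ε : ℝ) (hε : 0 < ε) : ∃ δ : ℝ, 0 < δ ∧ ∃ n₀ : ℕ, ∀ n N q : ℕ,
    n₀ ≤ n → 2 ≤ q → tow (s + 1) (ε * n) ≤ N → ∀ K ⊆ range N,
    (q : ℝ) ^ (K.card + 1) ≤ 2 ^ (δ * n) → ∀ c : Finset ℕ → Fin q,
      (∀ S ⊆ range N, S.card = n → ¬ Homogeneous (s + 2) c S) →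
        ∃ x y : Fin (s + 2) → ℕ, (∀ i, x i < N) ∧ (∀ i, y i < N) ∧ Twins c K x y := by
  obtain ⟨C, hC, h⟩ := twins s
  obtain ⟨n₀, hn₀⟩ := nat_le_rpow (ε / 2) (by positivity)
  have hC' : (1 : ℝ) ≤ C := by exact_mod_cast hC
  refine ⟨ε / (2 * C), by positivity, max n₀ 1, fun n N q hn hq hN K hK hκ c hc => ?_⟩
  have hn1 : n₀ ≤ n := (le_max_left _ _).trans hn
  have hn2 : 1 ≤ n := (le_max_right _ _).trans hn
  refine h q n N hq hn2 K hK ?_ c hc
  have h1 : ((twr s (q ^ (C * (K.card + 1)) * n) : ℕ) : ℝ) ≤ N := by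
    rw [twr_cast]
    refine le_trans ?_ hN
    rw [tow_two]
    apply tow_mono
    push_cast
    have h2 : (q : ℝ) ^ (C * (K.card + 1)) ≤ 2 ^ (ε / 2 * n) := by
      rw [mul_comm, pow_mul]
      calc ((q : ℝ) ^ (K.card + 1)) ^ C ≤ ((2 : ℝ) ^ (ε / (2 * C) * n)) ^ C :=
            pow_le_pow_left₀ (by positivity) hκ C
        _ = 2 ^ (ε / 2 * n) := by
            rw [← Real.rpow_natCast, ← Real.rpow_mul (by norm_num)]
            congr 1
            field_simp
    calc (q : ℝ) ^ (C * (K.card + 1)) * n ≤ 2 ^ (ε / 2 * n) * 2 ^ (ε / 2 * n) :=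
          mul_le_mul h2 (hn₀ n hn1) (Nat.cast_nonneg _) (by positivity)
      _ = 2 ^ (ε * n) := by
          rw [← Real.rpow_add (by norm_num)]
          ring_nf
  exact_mod_cast h1

end Pool.Agent.Q295.TY
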